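import Pool.Agent.helper50.MA.Spec1

/-!
# PROJECT ma, module B8: comparison of local Monge-Ampère functionals
-/

set_option autoImplicit false

open MeasureTheory Set Filter Topology Complex
open scoped ContDiff Real Manifold

namespace MAP

noncomputable section

theorem B8_D2_zero {h : C2 → ℝ} {x : C2} (hx : x ∉ tsupport h) (ξ η : C2) : D2 h x ξ η = 0 := by
  unfold D2
  have h1 : x ∉ tsupport (fderiv ℝ (fderiv ℝ h)) := fun h2 =>
    hx (tsupport_fderiv_subset ℝ (tsupport_fderiv_subset ℝ h2))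
  rw [image_eq_zero_of_notMem_tsupport h1]
  rfl

theorem B8_dens_zero {h g : C2 → ℝ} {x : C2} (hx : x ∉ tsupport h) : dens h g x = 0 := by
  simp [dens, hA, hB, hB', hC, lap, B8_D2_zero hx]

theorem B8_tsupport_dens {h g : C2 → ℝ} : tsupport (fun x => dens h g x) ⊆ tsupport h := by
  apply closure_minimal _ (isClosed_tsupport h)
  intro x hx
  by_contra hx'
  exact hx (B8_dens_zero hx')

/-- second derivative of the squared norm -/
def B8_L : C2 →L[ℝ] (C2 →L[ℝ] ℝ) :=
  (2 : ℝ) • ((innerSL ℝ (E := ℂ)).bilinearComp (ContinuousLinearMap.fst ℝ ℂ ℂ)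
    (ContinuousLinearMap.fst ℝ ℂ ℂ) + (innerSL ℝ (E := ℂ)).bilinearComp
    (ContinuousLinearMap.snd ℝ ℂ ℂ) (ContinuousLinearMap.snd ℝ ℂ ℂ))

theorem B8_L_self (ξ : C2) : B8_L ξ ξ = 2 * nsq ξ := by
  simp only [B8_L, nsq, _root_.smul_apply, _root_.add_apply,
    ContinuousLinearMap.bilinearComp_apply, ContinuousLinearMap.coe_fst',
    ContinuousLinearMap.coe_snd', innerSL_apply_apply, real_inner_self_eq_norm_sq, smul_eq_mul]

theorem B8_fderiv_nsq : fderiv ℝ nsq = fun x => B8_L x := by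
  funext x
  have h1 : HasFDerivAt (fun y : C2 => ‖y.1‖ ^ 2)
      (2 • (innerSL ℝ x.1).comp (ContinuousLinearMap.fst ℝ ℂ ℂ)) x := hasFDerivAt_fst.norm_sq
  have h2 : HasFDerivAt (fun y : C2 => ‖y.2‖ ^ 2)
      (2 • (innerSL ℝ x.2).comp (ContinuousLinearMap.snd ℝ ℂ ℂ)) x := hasFDerivAt_snd.norm_sq
  have h3 : HasFDerivAt nsq _ x := h1.add h2
  rw [h3.fderiv]
  ext y
  all_goals
    simp only [B8_L, _root_.smul_apply, _root_.add_apply,
      ContinuousLinearMap.bilinearComp_apply, ContinuousLinearMap.coe_fst',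
      ContinuousLinearMap.coe_snd', innerSL_apply_apply, smul_eq_mul,
      ContinuousLinearMap.comp_apply, nsmul_eq_mul, Nat.cast_ofNat,
      ContinuousLinearMap.inl_apply, ContinuousLinearMap.inr_apply]
    ring

theorem B8_D2_nsq (x ξ : C2) : D2 nsq x ξ ξ = 2 * nsq ξ := by
  unfold D2
  rw [B8_fderiv_nsq, B8_L.fderiv]
  exact B8_L_self ξ

theorem B8_nsq_I (ξ : C2) : nsq (I • ξ) = nsq ξ := by
  unfold nsq
  simp

theorem B8_lap_nsq (x ξ : C2) : lap nsq x ξ = 4 * nsq ξ := by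
  unfold lap
  rw [B8_D2_nsq, B8_D2_nsq, B8_nsq_I]
  ring

theorem B8_nsq_nonneg (ξ : C2) : 0 ≤ nsq ξ := by
  unfold nsq
  positivity

theorem B8_norm_sq_le (ξ : C2) : ‖ξ‖ ^ 2 ≤ nsq ξ := by
  unfold nsq
  rcases max_choice ‖ξ.1‖ ‖ξ.2‖ with h | h
  · rw [Prod.norm_def, h]
    nlinarith [sq_nonneg ‖ξ.2‖]
  · rw [Prod.norm_def, h]
    nlinarith [sq_nonneg ‖ξ.1‖]

theorem B8_norm_I (ξ : C2) : ‖I • ξ‖ = ‖ξ‖ := by
  rw [norm_smul, norm_I, one_mul]

theorem B8_contDiff_nsq : ContDiff ℝ ∞ nsq := by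
  unfold nsq
  exact (contDiff_fst.norm_sq ℝ).add (contDiff_snd.norm_sq ℝ)

theorem B8_D2_cont {V : Set C2} (hV : IsOpen V) {f : C2 → ℝ} (hf : ContDiffOn ℝ ∞ f V)
    (ξ η : C2) : ContinuousOn (fun x => D2 f x ξ η) V := by
  have h0 : ContDiffOn ℝ 2 f V := hf.of_le (WithTop.coe_le_coe.mpr (le_top : (2 : ℕ∞) ≤ ⊤))
  have h1 : ContDiffOn ℝ 1 (fderiv ℝ f) V :=
    h0.fderiv_of_isOpen hV (by norm_num)
  have h2 : ContDiffOn ℝ 0 (fderiv ℝ (fderiv ℝ f)) V :=
    h1.fderiv_of_isOpen hV (by norm_num)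
  have h3 : ContinuousOn (fderiv ℝ (fderiv ℝ f)) V := h2.continuousOn
  exact (h3.clm_apply continuousOn_const).clm_apply continuousOn_const

theorem B8_dens_cont {V : Set C2} (hV : IsOpen V) {f g : C2 → ℝ} (hf : ContDiffOn ℝ ∞ f V)
    (hg : ContDiffOn ℝ ∞ g V) : ContinuousOn (fun x => dens f g x) V := by
  have hF := fun ξ η => B8_D2_cont hV hf ξ η
  have hG := fun ξ η => B8_D2_cont hV hg ξ η
  unfold dens hA hC hB hB' lap
  refine ContinuousOn.div_const ?_ _
  refine ((((((hF _ _).add (hF _ _)).mul ((hG _ _).add (hG _ _))).add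
    (((hF _ _).add (hF _ _)).mul ((hG _ _).add (hG _ _)))).sub
    (continuousOn_const.mul (((hF _ _).add (hF _ _)).mul ((hG _ _).add (hG _ _))))).sub
    (continuousOn_const.mul (((hF _ _).sub (hF _ _)).mul ((hG _ _).sub (hG _ _)))))

theorem B8_cont {V : Set C2} (hV : IsOpen V) {f : C2 → ℝ} (hf : ContinuousOn f V)
    (hs : tsupport f ⊆ V) : Continuous f := by
  rw [continuous_iff_continuousAt]
  intro x
  by_cases hx : x ∈ V
  · exact hf.continuousAt (hV.mem_nhds hx)
  · have h1 : x ∉ tsupport f := fun h => hx (hs h)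
    have h2 : f =ᶠ[𝓝 x] fun _ => 0 := notMem_tsupport_iff_eventuallyEq.mp h1
    exact (continuousAt_const.congr h2.symm)

theorem B8_integrable {V : Set C2} (hV : IsOpen V) {f g : C2 → ℝ} (hf : Continuous f)
    (hfc : HasCompactSupport f) (hs : tsupport f ⊆ V) (hg : ContinuousOn g V) :
    Integrable (fun x => f x * g x) := by
  have h1 : tsupport (fun x => f x * g x) ⊆ tsupport f := by
    apply closure_mono
    intro x hx hx'
    apply hx
    change f x * g x = 0
    rw [hx', zero_mul]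
  have h2 : Continuous fun x => f x * g x :=
    B8_cont hV (hf.continuousOn.mul hg) (h1.trans hs)
  have h3 : HasCompactSupport fun x => f x * g x :=
    IsCompact.of_isClosed_subset hfc (isClosed_tsupport _) h1
  exact h2.integrable_of_hasCompactSupport h3

theorem B8_cutoff {V K : Set C2} (hV : IsOpen V) (hK : IsCompact K) (hKV : K ⊆ V) :
    ∃ η : C2 → ℝ, ContDiff ℝ ∞ η ∧ HasCompactSupport η ∧ tsupport η ⊆ V ∧ (∀ x ∈ K, η x = 1) ∧
      ∀ x, 0 ≤ η x := by
  obtain ⟨K', hK', h1, h2⟩ := exists_compact_between hK hV hKV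
  obtain ⟨f, hf0, hf1, hf⟩ := exists_contMDiffMap_zero_one_of_isClosed (n := ⊤) 𝓘(ℝ, C2)
    (s := (interior K')ᶜ) (t := K) isOpen_interior.isClosed_compl hK.isClosed
    (disjoint_left.mpr fun x hx hxK => hx (h1 hxK))
  have hs : tsupport (f : C2 → ℝ) ⊆ K' := by
    apply closure_minimal _ hK'.isClosed
    intro x hx
    by_contra hx'
    apply hx
    exact hf0 (fun h => hx' (interior_subset h))
  refine ⟨f, f.contMDiff.contDiff, IsCompact.of_isClosed_subset hK' (isClosed_tsupport _) hs,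
    hs.trans h2, fun x hx => hf1 hx, fun x => (hf x).1⟩

theorem B8_at {V : Set C2} (hV : IsOpen V) {f : C2 → ℝ} (hf : ContDiffOn ℝ ∞ f V) {x : C2}
    (hx : x ∈ V) : ContDiffAt ℝ 2 f x :=
  (hf.contDiffAt (hV.mem_nhds hx)).of_le (WithTop.coe_le_coe.mpr (le_top : (2 : ℕ∞) ≤ ⊤))

theorem B8_D2_le (h : C2 → ℝ) (x ξ : C2) :
    |D2 h x ξ ξ| ≤ ‖fderiv ℝ (fderiv ℝ h) x‖ * ‖ξ‖ * ‖ξ‖ := by
  unfold D2
  rw [← Real.norm_eq_abs]
  exact ContinuousLinearMap.le_opNorm₂ _ ξ ξ

set_option maxHeartbeats 400000 in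
theorem B8_bound {h : C2 → ℝ} (hh : ContDiff ℝ ∞ h) (hhc : HasCompactSupport h) :
    ∃ M : ℝ, 0 ≤ M ∧ ∀ x ξ, |lap h x ξ| ≤ M * (4 * nsq ξ) := by
  have h0 : ContDiff ℝ 2 h := hh.of_le (WithTop.coe_le_coe.mpr (le_top : (2 : ℕ∞) ≤ ⊤))
  have h1 : ContDiff ℝ 1 (fderiv ℝ h) := h0.fderiv_right (by norm_num)
  have h2 := (h1.continuous_fderiv (by norm_num)).norm
  have hc : IsCompact (tsupport h) := hhc
  obtain ⟨M', hM'⟩ := hc.exists_bound_of_continuousOn h2.continuousOn
  obtain ⟨M, hMdef⟩ : ∃ M : ℝ, M = |M'| := ⟨_, rfl⟩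
  have hM0 : 0 ≤ M := by rw [hMdef]; exact abs_nonneg _
  have hM : ∀ x ∈ tsupport h, ‖fderiv ℝ (fderiv ℝ h) x‖ ≤ M := fun x hx => by
    rw [hMdef]
    exact ((le_abs_self _).trans (hM' x hx)).trans (le_abs_self _)
  have h3 : ∀ x ξ : C2, |D2 h x ξ ξ| ≤ M * nsq ξ := by
    intro x ξ
    by_cases hx : x ∈ tsupport h
    · have h4 := B8_D2_le h x ξ
      have h5 : ‖fderiv ℝ (fderiv ℝ h) x‖ * ‖ξ‖ * ‖ξ‖ ≤ M * nsq ξ := by
        rw [mul_assoc, ← sq]
        exact mul_le_mul (hM x hx) (B8_norm_sq_le ξ) (sq_nonneg _) hM0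
      exact h4.trans h5
    · rw [B8_D2_zero hx, abs_zero]
      exact mul_nonneg hM0 (B8_nsq_nonneg ξ)
  refine ⟨M / 2, by positivity, fun x ξ => ?_⟩
  unfold lap
  have h6 := h3 x ξ
  have h7 := h3 x (I • ξ)
  rw [B8_nsq_I] at h7
  have h8 := abs_add_le (D2 h x ξ ξ) (D2 h x (I • ξ) (I • ξ))
  linarith

set_option maxHeartbeats 1000000 in
theorem B8 (hA3 : A3_stmt) (hB7 : B7_stmt) (hC2 : C2_stmt) : B8_stmt := by
  intro U V h hU hV hVU hh hhc hhs
  obtain ⟨-, c2, -, c4, c5, c6, -⟩ := hC2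
  obtain ⟨η, hη, hηc, hηs, hη1, hη0⟩ := B8_cutoff hV hhc hhs
  obtain ⟨M, hM0, hM⟩ := B8_bound hh hhc
  have hJ0 : 0 ≤ ∫ x, |dens η nsq x| := integral_nonneg fun x => abs_nonneg _
  refine ⟨2 * M * ∫ x, |dens η nsq x|, by positivity, ?_⟩
  intro u v m δ hu hv hup hvp hum hvm huv
  have hoff : ∀ x, x ∉ V → x ∉ tsupport h := fun x hx hx' => hx (hhs hx')
  have hoffη : ∀ x, x ∉ V → x ∉ tsupport η := fun x hx hx' => hx (hηs hx')
  rcases V.eq_empty_or_nonempty with hVe | ⟨x0, hx0⟩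
  · have hz : ∀ x, h x = 0 := fun x => by
      apply image_eq_zero_of_notMem_tsupport
      apply hoff
      rw [hVe]; simp
    have hz2 : ∀ x, |dens η nsq x| = 0 := fun x => by
      rw [B8_dens_zero, abs_zero]
      apply hoffη
      rw [hVe]; simp
    simp [hz, hz2]
  have hm0 : 0 ≤ m := (abs_nonneg _).trans (hum x0 hx0)
  have hδ0 : 0 ≤ δ := (abs_nonneg _).trans (huv x0 hx0)
  obtain ⟨w, hw⟩ : ∃ w : C2 → ℝ, w = fun y => 1 * u y + 1 * v y := ⟨_, rfl⟩
  obtain ⟨φ, hφ⟩ : ∃ φ : C2 → ℝ, φ = fun y => 1 * u y + (-1) * v y := ⟨_, rfl⟩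
  have hws : ContDiffOn ℝ ∞ w V := by
    rw [hw]
    exact (contDiffOn_const.mul hu).add (contDiffOn_const.mul hv)
  have hφs : ContDiffOn ℝ ∞ φ V := by
    rw [hφ]
    exact (contDiffOn_const.mul hu).add (contDiffOn_const.mul hv)
  have hns : ContDiffOn ℝ ∞ nsq V := B8_contDiff_nsq.contDiffOn
  have hlu := (hA3.2 V u hV (hu.of_le (WithTop.coe_le_coe.mpr (le_top : (2 : ℕ∞) ≤ ⊤)))).mp hup
  have hlv := (hA3.2 V v hV (hv.of_le (WithTop.coe_le_coe.mpr (le_top : (2 : ℕ∞) ≤ ⊤)))).mp hvp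
  have hlw : ∀ x ∈ V, ∀ ξ, 0 ≤ lap w x ξ := by
    intro x hx ξ
    rw [hw, (c5 u v u x 1 1 (B8_at hV hu hx) (B8_at hV hv hx)).1 ξ]
    have h1 := hlu x hx ξ
    have h2 := hlv x hx ξ
    linarith
  -- the difference
  have hdiff : ∀ x, h x * dens u u x - h x * dens v v x = h x * dens φ w x := by
    intro x
    by_cases hx : x ∈ V
    · have e1 : dens φ w x = 1 * dens u w x + (-1) * dens v w x := by
        rw [hφ]
        exact (c5 u v w x 1 (-1) (B8_at hV hu hx) (B8_at hV hv hx)).2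
      have e2 : dens u w x = 1 * dens u u x + 1 * dens v u x := by
        rw [c6 u w x, hw]
        exact (c5 u v u x 1 1 (B8_at hV hu hx) (B8_at hV hv hx)).2
      have e3 : dens v w x = 1 * dens u v x + 1 * dens v v x := by
        rw [c6 v w x, hw]
        exact (c5 u v v x 1 1 (B8_at hV hu hx) (B8_at hV hv hx)).2
      rw [e1, e2, e3, c6 v u x]
      ring
    · rw [image_eq_zero_of_notMem_tsupport (hoff x hx)]
      ring
  have hint : ∀ {f g : C2 → ℝ}, ContDiffOn ℝ ∞ f V → ContDiffOn ℝ ∞ g V →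
      Integrable (fun x => h x * dens f g x) := fun hf hg =>
    B8_integrable hV hh.continuous hhc hhs (B8_dens_cont hV hf hg)
  have hI1 : (∫ x, h x * dens u u x) - ∫ x, h x * dens v v x = ∫ x, φ x * dens h w x := by
    rw [← integral_sub (hint hu hu) (hint hv hv), hB7 V h w φ hV hh hhc hhs hws hφs]
    exact integral_congr_ae (Eventually.of_forall hdiff)
  rw [hI1]
  have hI2 : ∫ x, w x * dens η nsq x = ∫ x, η x * dens w nsq x :=
    hB7 V η nsq w hV hη hηc hηs hns hws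
  have hIη : Integrable (fun x => η x * dens w nsq x) :=
    B8_integrable hV hη.continuous hηc hηs (B8_dens_cont hV hws hns)
  -- first bound
  have hb1 : ‖∫ x, φ x * dens h w x‖ ≤ ∫ x, (δ * M) * (η x * dens w nsq x) := by
    refine norm_integral_le_of_norm_le (hIη.const_mul _) (Eventually.of_forall fun x => ?_)
    rw [Real.norm_eq_abs]
    by_cases hx : x ∈ tsupport h
    · have hxV := hhs hx
      have aw := B8_at hV hws hxV
      have ah := B8_at hV hh.contDiffOn hxV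
      have an := B8_at hV hns hxV
      have hφx : |φ x| ≤ δ := by
        rw [hφ]
        have := huv x hxV
        simpa [sub_eq_add_neg] using this
      have hd : |dens h w x| ≤ M * dens nsq w x := by
        have k1 : dens (fun y => M * nsq y + 0 * nsq y) w x = M * dens nsq w x + 0 * dens nsq w x :=
          (c5 nsq nsq w x M 0 an an).2
        have k2 : ∀ ξ, lap (fun y => M * nsq y + 0 * nsq y) x ξ = M * lap nsq x ξ + 0 * lap nsq x ξ :=
          (c5 nsq nsq w x M 0 an an).1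
        have k3 : dens (fun y => (-1) * h y + 0 * h y) w x = (-1) * dens h w x + 0 * dens h w x :=
          (c5 h h w x (-1) 0 ah ah).2
        have k4 : ∀ ξ, lap (fun y => (-1) * h y + 0 * h y) x ξ = (-1) * lap h x ξ + 0 * lap h x ξ :=
          (c5 h h w x (-1) 0 ah ah).1
        have an' : ContDiffAt ℝ 2 (fun y => M * nsq y + 0 * nsq y) x :=
          (contDiffAt_const.mul an).add (contDiffAt_const.mul an)
        have ah' : ContDiffAt ℝ 2 (fun y => (-1) * h y + 0 * h y) x :=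
          (contDiffAt_const.mul ah).add (contDiffAt_const.mul ah)
        have u1 := c4 h _ w x ah an' aw (fun ξ => by
          rw [k2, B8_lap_nsq]
          have := (abs_le.mp (hM x ξ)).2
          linarith) (hlw x hxV)
        have u2 := c4 _ _ w x ah' an' aw (fun ξ => by
          rw [k2, k4, B8_lap_nsq]
          have := (abs_le.mp (hM x ξ)).1
          linarith) (hlw x hxV)
        rw [k1] at u1
        rw [k1, k3] at u2
        rw [abs_le]
        constructor <;> linarith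
      rw [abs_mul, hη1 x hx, one_mul, c6 w nsq x, mul_assoc]
      exact mul_le_mul hφx hd (abs_nonneg _) hδ0
    · rw [B8_dens_zero hx, mul_zero, abs_zero]
      have : 0 ≤ η x * dens w nsq x := by
        by_cases hxV : x ∈ V
        · refine mul_nonneg (hη0 x) (c2 w nsq x (B8_at hV hws hxV) (B8_at hV hns hxV)
            (hlw x hxV) fun ξ => ?_)
          rw [B8_lap_nsq]
          have := B8_nsq_nonneg ξ
          linarith
        · rw [image_eq_zero_of_notMem_tsupport (hoffη x hxV), zero_mul]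
      positivity
  -- second bound
  have hIn : Integrable (fun x => |dens η nsq x|) := by
    have h1 : Continuous fun x => dens η nsq x :=
      B8_cont isOpen_univ (B8_dens_cont isOpen_univ hη.contDiffOn B8_contDiff_nsq.contDiffOn)
        (subset_univ _)
    have h2 : HasCompactSupport fun x => dens η nsq x :=
      IsCompact.of_isClosed_subset hηc (isClosed_tsupport _) B8_tsupport_dens
    exact (h1.integrable_of_hasCompactSupport h2).abs
  have hb2 : ‖∫ x, w x * dens η nsq x‖ ≤ ∫ x, (2 * m) * |dens η nsq x| := by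
    refine norm_integral_le_of_norm_le (hIn.const_mul _) (Eventually.of_forall fun x => ?_)
    rw [Real.norm_eq_abs, abs_mul]
    by_cases hxV : x ∈ V
    · have hwx : |w x| ≤ 2 * m := by
        rw [hw]
        have h1 := hum x hxV
        have h2 := hvm x hxV
        have h3 := abs_add_le (1 * u x) (1 * v x)
        rw [one_mul, one_mul] at h3
        simp only [one_mul]
        linarith
      exact mul_le_mul_of_nonneg_right hwx (abs_nonneg _)
    · rw [B8_dens_zero (hoffη x hxV), abs_zero, mul_zero, mul_zero]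
  rw [Real.norm_eq_abs] at hb1 hb2
  rw [integral_const_mul] at hb1 hb2
  rw [← hI2] at hb1
  have hb3 : ∫ x, w x * dens η nsq x ≤ 2 * m * ∫ x, |dens η nsq x| := (le_abs_self _).trans hb2
  calc |∫ x, φ x * dens h w x| ≤ δ * M * ∫ x, w x * dens η nsq x := hb1
    _ ≤ δ * M * (2 * m * ∫ x, |dens η nsq x|) :=
        mul_le_mul_of_nonneg_left hb3 (mul_nonneg hδ0 hM0)
    _ = 2 * M * (∫ x, |dens η nsq x|) * m * δ := by ring

end

end MAP
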