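import Pool.Agent.helper50.MA.SpecI

/-!
# PROJECT ma, module I1: the parametrisations of the explicit surface
-/

set_option autoImplicit false

open MeasureTheory Set Filter Topology Complex Matrix
open scoped ContDiff Real Manifold

namespace DMAProblem

noncomputable section

theorem I1_sum_pos {n : ℕ} {v : Fin n → ℂ} (hv : v ≠ 0) : 0 < ∑ k, ‖v k‖ ^ 2 := by
  obtain ⟨j, hj⟩ := Function.ne_iff.mp hv
  have h1 : 0 < ‖v j‖ ^ 2 := by
    have : 0 < ‖v j‖ := norm_pos_iff.mpr hj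
    positivity
  exact lt_of_lt_of_le h1
    (Finset.single_le_sum (f := fun k => ‖v k‖ ^ 2) (fun k _ => by positivity) (Finset.mem_univ j))

theorem I1_sum_ne {n : ℕ} {v : Fin n → ℂ} (hv : v ≠ 0) : ((∑ k, ‖v k‖ ^ 2 : ℝ) : ℂ) ≠ 0 := by
  exact_mod_cast (I1_sum_pos hv).ne'

theorem I1_sum_eq {n : ℕ} (v : Fin n → ℂ) :
    ((∑ k, ‖v k‖ ^ 2 : ℝ) : ℂ) = ∑ k, (starRingEnd ℂ) (v k) * v k := by
  push_cast
  refine Finset.sum_congr rfl fun k _ => ?_
  rw [← Complex.normSq_eq_conj_mul_self, Complex.normSq_eq_norm_sq]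
  push_cast
  rfl

theorem I1_proj_apply {n : ℕ} (v : Fin n → ℂ) (i j : Fin n) :
    proj v i j = v i * (starRingEnd ℂ) (v j) / ((∑ k, ‖v k‖ ^ 2 : ℝ) : ℂ) := rfl

theorem I1_isLine {n : ℕ} {v : Fin n → ℂ} (hv : v ≠ 0) : IsLine (proj v) := by
  have hs := I1_sum_ne hv
  refine ⟨?_, ?_, ?_⟩
  · ext i j
    rw [conjTranspose_apply, I1_proj_apply, I1_proj_apply]
    rw [star_def, map_div₀, map_mul, Complex.conj_conj, Complex.conj_ofReal]
    ring
  · ext i j
    rw [Matrix.mul_apply]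
    simp only [I1_proj_apply]
    have h1 : ∀ k, v i * (starRingEnd ℂ) (v k) / ((∑ k, ‖v k‖ ^ 2 : ℝ) : ℂ) *
        (v k * (starRingEnd ℂ) (v j) / ((∑ k, ‖v k‖ ^ 2 : ℝ) : ℂ)) =
        (starRingEnd ℂ) (v k) * v k * (v i * (starRingEnd ℂ) (v j) /
          (((∑ k, ‖v k‖ ^ 2 : ℝ) : ℂ) * ((∑ k, ‖v k‖ ^ 2 : ℝ) : ℂ))) := by
      intro k
      field_simp
    rw [Finset.sum_congr rfl fun k _ => h1 k, ← Finset.sum_mul, ← I1_sum_eq]
    field_simp
  · rw [Matrix.trace]
    simp only [diag_apply, I1_proj_apply]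
    rw [← Finset.sum_div, div_eq_one_iff_eq hs, I1_sum_eq]
    exact Finset.sum_congr rfl fun k _ => mul_comm _ _

theorem I1_proj_smul {n : ℕ} (v : Fin n → ℂ) {c : ℂ} (hc : c ≠ 0) :
    proj (fun i => c * v i) = proj v := by
  by_cases hv : v = 0
  · subst hv
    ext i j
    simp [I1_proj_apply]
  have hs := I1_sum_ne hv
  ext i j
  rw [I1_proj_apply, I1_proj_apply]
  have h1 : ((∑ k, ‖c * v k‖ ^ 2 : ℝ) : ℂ) =
      (c * (starRingEnd ℂ) c) * ((∑ k, ‖v k‖ ^ 2 : ℝ) : ℂ) := by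
    have : (∑ k, ‖c * v k‖ ^ 2 : ℝ) = ‖c‖ ^ 2 * ∑ k, ‖v k‖ ^ 2 := by
      rw [Finset.mul_sum]
      refine Finset.sum_congr rfl fun k _ => ?_
      rw [norm_mul, mul_pow]
    rw [this, Complex.ofReal_mul, Complex.mul_conj, Complex.normSq_eq_norm_sq]
  have hc' : (starRingEnd ℂ) c ≠ 0 := by simpa using hc
  rw [h1, map_mul]
  field_simp

/-- a line with `P j j ≠ 0` is the projector onto its column `j` -/
theorem I1_eq_proj {n : ℕ} {P : Matrix (Fin n) (Fin n) ℂ} (hP : IsLine P) {j : Fin n}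
    (hj : P j j ≠ 0) : P = proj (fun i => P i j) := by
  obtain ⟨h1, h2, h3⟩ := hP
  have hc : ∀ a b, (starRingEnd ℂ) (P a b) = P b a := by
    intro a b
    have := congrFun (congrFun h1 b) a
    rwa [conjTranspose_apply] at this
  have hm : ∀ a b, ∑ k, P a k * P k b = P a b := by
    intro a b
    have := congrFun (congrFun h2 a) b
    rwa [Matrix.mul_apply] at this
  have hw : (fun i => P i j) ≠ 0 := fun h => hj (congrFun h j)
  have hs : ((∑ k, ‖P k j‖ ^ 2 : ℝ) : ℂ) = P j j := by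
    rw [I1_sum_eq, ← hm j j]
    exact Finset.sum_congr rfl fun k _ => by rw [hc]
  -- Q = P - proj w
  set Q : Matrix (Fin n) (Fin n) ℂ := P - proj (fun i => P i j) with hQ
  have hQa : ∀ a b, Q a b = P a b - P a j * P j b / P j j := by
    intro a b
    rw [hQ, Matrix.sub_apply, I1_proj_apply, hs, hc]
  have hQc : ∀ a b, (starRingEnd ℂ) (Q a b) = Q b a := by
    intro a b
    rw [hQa, hQa, map_sub, map_div₀, map_mul, hc, hc, hc, hc]
    ring
  have hQm : ∀ a b, ∑ k, Q a k * Q k b = Q a b := by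
    intro a b
    have e : ∀ k, Q a k * Q k b = P a k * P k b - (P a k * P k j) * (P j b / P j j) -
        (P a j / P j j) * (P j k * P k b) + (P a j / P j j) * (P j b / P j j) * (P j k * P k j) := by
      intro k
      rw [hQa, hQa]
      field_simp
      ring
    rw [Finset.sum_congr rfl fun k _ => e k, Finset.sum_add_distrib, Finset.sum_sub_distrib,
      Finset.sum_sub_distrib, ← Finset.sum_mul, ← Finset.mul_sum, ← Finset.mul_sum, hm, hm, hm, hm,
      hQa]
    field_simp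
    ring
  have hQt : ∑ a, Q a a = 0 := by
    have e : ∀ a, Q a a = P a a - (P j a * P a j) / P j j := by
      intro a
      rw [hQa]
      ring
    rw [Finset.sum_congr rfl fun a _ => e a, Finset.sum_sub_distrib, ← Finset.sum_div, hm,
      div_self hj]
    have : ∑ a, P a a = 1 := h3
    rw [this, sub_self]
  have hQ0 : ∀ a k, Q a k = 0 := by
    have e : ∑ a, ∑ k, ‖Q a k‖ ^ 2 = 0 := by
      have h4 : ((∑ a, ∑ k, ‖Q a k‖ ^ 2 : ℝ) : ℂ) = 0 := by
        rw [← hQt]
        push_cast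
        refine Finset.sum_congr rfl fun a _ => ?_
        rw [← hQm a a]
        refine Finset.sum_congr rfl fun k _ => ?_
        rw [← hQc a k, Complex.mul_conj, Complex.normSq_eq_norm_sq]
        push_cast
        rfl
      exact_mod_cast h4
    intro a k
    have h5 := (Finset.sum_eq_zero_iff_of_nonneg
      (fun a _ => Finset.sum_nonneg fun k _ => by positivity)).mp e a (Finset.mem_univ a)
    have h6 := (Finset.sum_eq_zero_iff_of_nonneg (fun k _ => by positivity)).mp h5 k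
      (Finset.mem_univ k)
    simpa using h6
  have hQz : Q = 0 := by
    ext a k
    exact hQ0 a k
  rw [hQ] at hQz
  exact sub_eq_zero.mp hQz

theorem I1_eq_proj' {n : ℕ} {P : Matrix (Fin n) (Fin n) ℂ} (hP : IsLine P) {j : Fin n}
    (hj : P j j ≠ 0) : P = proj (fun i => P i j / P j j) := by
  have h := I1_proj_smul (fun i => P i j) (inv_ne_zero hj)
  rw [← I1_eq_proj hP hj] at h
  rw [← h]
  congr 1
  funext i
  rw [div_eq_inv_mul]
  congr 1
  · rw [h]
  · rw [h]

theorem I1_exists_diag {n : ℕ} {P : Matrix (Fin n) (Fin n) ℂ} (hP : IsLine P) :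
    ∃ j, P j j ≠ 0 := by
  by_contra hcon
  simp only [not_exists, not_not] at hcon
  have h3 := hP.2.2
  rw [Matrix.trace] at h3
  simp only [diag_apply, hcon, Finset.sum_const_zero] at h3
  exact zero_ne_one h3

/-- a nonzero fixed vector spans the line -/
theorem I1_eq_proj_of_fixed {n : ℕ} {Q : Matrix (Fin n) (Fin n) ℂ} (hQ : IsLine Q)
    {u : Fin n → ℂ} (hu : u ≠ 0) (hf : ∀ i, ∑ k, Q i k * u k = u i) : Q = proj u := by
  obtain ⟨j, hj⟩ := I1_exists_diag hQ
  have h1 := I1_eq_proj hQ hj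
  obtain ⟨w, hw⟩ : ∃ w : Fin n → ℂ, w = fun i => Q i j := ⟨_, rfl⟩
  rw [← hw] at h1
  obtain ⟨c, hc⟩ : ∃ c : ℂ, ∀ i, u i = c * w i := by
    refine ⟨(∑ k, (starRingEnd ℂ) (w k) * u k) / ((∑ k, ‖w k‖ ^ 2 : ℝ) : ℂ), fun i => ?_⟩
    rw [← hf i, h1]
    simp only [I1_proj_apply]
    rw [Finset.sum_div, Finset.sum_mul]
    refine Finset.sum_congr rfl fun k _ => ?_
    ring
  have hc0 : c ≠ 0 := by
    rintro rfl
    apply hu
    funext i
    rw [hc]; simp
  have h2 : u = fun i => c * w i := funext hc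
  rw [h2, I1_proj_smul w hc0]
  exact h1

theorem I1_rel {m : Fin 2 → ℂ} {l : Fin 3 → ℂ} (hm : m ≠ 0) (c : ℂ)
    (h0 : l 0 = c * m 0) (h1 : l 1 = c * m 1) :
    (1 - proj m) * (proj l).submatrix (Fin.castSucc : Fin 2 → Fin 3) id = 0 := by
  have hs := I1_sum_ne hm
  rw [Matrix.sub_mul, Matrix.one_mul, sub_eq_zero]
  ext i j
  rw [Matrix.mul_apply]
  simp only [submatrix_apply, id_eq, I1_proj_apply]
  have hl : ∀ i : Fin 2, l i.castSucc = c * m i := by
    intro i
    fin_cases i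
    · exact h0
    · exact h1
  simp only [hl]
  have e : ∀ k, m i * (starRingEnd ℂ) (m k) / ((∑ k, ‖m k‖ ^ 2 : ℝ) : ℂ) *
      (c * m k * (starRingEnd ℂ) (l j) / ((∑ k, ‖l k‖ ^ 2 : ℝ) : ℂ)) =
      ((starRingEnd ℂ) (m k) * m k) * (m i / ((∑ k, ‖m k‖ ^ 2 : ℝ) : ℂ) * c *
        ((starRingEnd ℂ) (l j) / ((∑ k, ‖l k‖ ^ 2 : ℝ) : ℂ))) := fun k => by ring
  rw [Finset.sum_congr rfl fun k _ => e k, ← Finset.sum_mul, ← I1_sum_eq]
  field_simp

theorem I1_quot {n : ℕ} {v : Fin n → ℂ} {j : Fin n} (hj : v j ≠ 0) (i : Fin n) :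
    proj v j j ≠ 0 ∧ proj v i j / proj v j j = v i / v j := by
  have hv : v ≠ 0 := fun h => hj (congrFun h j)
  have hs := I1_sum_ne hv
  have hc : (starRingEnd ℂ) (v j) ≠ 0 := by simpa using hj
  rw [I1_proj_apply, I1_proj_apply]
  refine ⟨by positivity, ?_⟩
  field_simp

/-- the columns of `P` restricted to the first two coordinates are fixed by `Q` -/
theorem I1_fixed (x : Bl) (j : Fin 3) (i : Fin 2) :
    ∑ k : Fin 2, x.1.2 i k * x.1.1 k.castSucc j = x.1.1 i.castSucc j := by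
  have h := x.2.2.2
  rw [Matrix.sub_mul, Matrix.one_mul, sub_eq_zero] at h
  have h1 := congrFun (congrFun h i) j
  rw [Matrix.mul_apply] at h1
  simp only [submatrix_apply, id_eq] at h1
  exact h1.symm

theorem I1_part1 (k : Fin 4) (y : C2) : parl k y ≠ 0 ∧ parm k y ≠ 0 ∧
    ∃ c : ℂ, parl k y 0 = c * parm k y 0 ∧ parl k y 1 = c * parm k y 1 := by
  fin_cases k
  · refine ⟨fun h => one_ne_zero (congrFun h 2), fun h => one_ne_zero (congrFun h 0), y.1, ?_, ?_⟩
    · show y.1 = y.1 * 1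
      ring
    · show y.1 * y.2 = y.1 * y.2
      rfl
  · refine ⟨fun h => one_ne_zero (congrFun h 2), fun h => one_ne_zero (congrFun h 1), y.1, ?_, ?_⟩
    · show y.1 * y.2 = y.1 * y.2
      rfl
    · show y.1 = y.1 * 1
      ring
  · refine ⟨fun h => one_ne_zero (congrFun h 0), fun h => one_ne_zero (congrFun h 0), 1, ?_, ?_⟩
    · show (1 : ℂ) = 1 * 1
      ring
    · show y.1 = 1 * y.1
      ring
  · refine ⟨fun h => one_ne_zero (congrFun h 1), fun h => one_ne_zero (congrFun h 1), 1, ?_, ?_⟩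
    · show y.1 = 1 * y.1
      ring
    · show (1 : ℂ) = 1 * 1
      ring

theorem I1_part2 (k : Fin 4) (y : C2) (x : Bl) (hl : x.1.1 = proj (parl k y))
    (hm : x.1.2 = proj (parm k y)) : x ∈ dom k ∧ coord k x = y := by
  fin_cases k
  · have a2 : parl 0 y 2 ≠ 0 := one_ne_zero
    have b0 : parm 0 y 0 ≠ 0 := one_ne_zero
    have q1 := I1_quot a2 0
    have q2 := I1_quot b0 1
    refine ⟨?_, ?_⟩
    · show x.1.1 2 2 ≠ 0 ∧ x.1.2 0 0 ≠ 0
      rw [hl, hm]
      exact ⟨q1.1, q2.1⟩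
    · show (x.1.1 0 2 / x.1.1 2 2, x.1.2 1 0 / x.1.2 0 0) = y
      rw [hl, hm]
      refine Prod.ext (q1.2.trans ?_) (q2.2.trans ?_)
      · show y.1 / 1 = y.1
        rw [div_one]
      · show y.2 / 1 = y.2
        rw [div_one]
  · have a2 : parl 1 y 2 ≠ 0 := one_ne_zero
    have b0 : parm 1 y 1 ≠ 0 := one_ne_zero
    have q1 := I1_quot a2 1
    have q2 := I1_quot b0 0
    refine ⟨?_, ?_⟩
    · show x.1.1 2 2 ≠ 0 ∧ x.1.2 1 1 ≠ 0
      rw [hl, hm]
      exact ⟨q1.1, q2.1⟩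
    · show (x.1.1 1 2 / x.1.1 2 2, x.1.2 0 1 / x.1.2 1 1) = y
      rw [hl, hm]
      refine Prod.ext (q1.2.trans ?_) (q2.2.trans ?_)
      · show y.1 / 1 = y.1
        rw [div_one]
      · show y.2 / 1 = y.2
        rw [div_one]
  · have a2 : parl 2 y 0 ≠ 0 := one_ne_zero
    have q1 := I1_quot a2 1
    have q2 := I1_quot a2 2
    refine ⟨?_, ?_⟩
    · show x.1.1 0 0 ≠ 0
      rw [hl]
      exact q1.1
    · show (x.1.1 1 0 / x.1.1 0 0, x.1.1 2 0 / x.1.1 0 0) = y
      rw [hl]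
      refine Prod.ext (q1.2.trans ?_) (q2.2.trans ?_)
      · show y.1 / 1 = y.1
        rw [div_one]
      · show y.2 / 1 = y.2
        rw [div_one]
  · have a2 : parl 3 y 1 ≠ 0 := one_ne_zero
    have q1 := I1_quot a2 0
    have q2 := I1_quot a2 2
    refine ⟨?_, ?_⟩
    · show x.1.1 1 1 ≠ 0
      rw [hl]
      exact q1.1
    · show (x.1.1 0 1 / x.1.1 1 1, x.1.1 2 1 / x.1.1 1 1) = y
      rw [hl]
      refine Prod.ext (q1.2.trans ?_) (q2.2.trans ?_)
      · show y.1 / 1 = y.1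
        rw [div_one]
      · show y.2 / 1 = y.2
        rw [div_one]

/-- `Q (m ⊗ ...)`: a vector fixed by `proj m` is a multiple of `m` -/
theorem I1_fixed_mul {n : ℕ} {m u : Fin n → ℂ} (hf : ∀ i, ∑ k, proj m i k * u k = u i) :
    ∃ c : ℂ, ∀ i, u i = c * m i := by
  refine ⟨(∑ k, (starRingEnd ℂ) (m k) * u k) / ((∑ k, ‖m k‖ ^ 2 : ℝ) : ℂ), fun i => ?_⟩
  rw [← hf i]
  simp only [I1_proj_apply]
  rw [Finset.sum_div, Finset.sum_mul]
  refine Finset.sum_congr rfl fun k _ => ?_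
  ring

theorem I1_part3 (k : Fin 4) (x : Bl) (hx : x ∈ dom k) :
    x.1.1 = proj (parl k (coord k x)) ∧ x.1.2 = proj (parm k (coord k x)) := by
  have hP := x.2.1
  have hQ := x.2.2.1
  fin_cases k
  · obtain ⟨h1, h2⟩ : x.1.1 2 2 ≠ 0 ∧ x.1.2 0 0 ≠ 0 := hx
    have e2 : parm 0 (coord 0 x) = fun i => x.1.2 i 0 / x.1.2 0 0 := by
      funext i
      fin_cases i
      · show (1 : ℂ) = x.1.2 0 0 / x.1.2 0 0
        rw [div_self h2]
      · rfl
    have hm : x.1.2 = proj (parm 0 (coord 0 x)) := by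
      rw [e2]
      exact I1_eq_proj' hQ h2
    have hf : ∀ i : Fin 2, ∑ k : Fin 2, proj (parm 0 (coord 0 x)) i k * x.1.1 k.castSucc 2 =
        x.1.1 i.castSucc 2 := by
      intro i
      rw [← hm]
      exact I1_fixed x 2 i
    obtain ⟨c, hc⟩ := I1_fixed_mul (u := fun k : Fin 2 => x.1.1 k.castSucc 2) hf
    have hc0 : x.1.1 0 2 = c * 1 := hc 0
    have hc1 : x.1.1 1 2 = c * (x.1.2 1 0 / x.1.2 0 0) := hc 1
    have e1 : parl 0 (coord 0 x) = fun i => x.1.1 i 2 / x.1.1 2 2 := by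
      funext i
      fin_cases i
      · rfl
      · show x.1.1 0 2 / x.1.1 2 2 * (x.1.2 1 0 / x.1.2 0 0) = x.1.1 1 2 / x.1.1 2 2
        rw [hc1, hc0]
        ring
      · show (1 : ℂ) = x.1.1 2 2 / x.1.1 2 2
        rw [div_self h1]
    refine ⟨?_, hm⟩
    show x.1.1 = proj (parl 0 (coord 0 x))
    rw [e1]
    exact I1_eq_proj' hP h1
  · obtain ⟨h1, h2⟩ : x.1.1 2 2 ≠ 0 ∧ x.1.2 1 1 ≠ 0 := hx
    have e2 : parm 1 (coord 1 x) = fun i => x.1.2 i 1 / x.1.2 1 1 := by
      funext i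
      fin_cases i
      · rfl
      · show (1 : ℂ) = x.1.2 1 1 / x.1.2 1 1
        rw [div_self h2]
    have hm : x.1.2 = proj (parm 1 (coord 1 x)) := by
      rw [e2]
      exact I1_eq_proj' hQ h2
    have hf : ∀ i : Fin 2, ∑ k : Fin 2, proj (parm 1 (coord 1 x)) i k * x.1.1 k.castSucc 2 =
        x.1.1 i.castSucc 2 := by
      intro i
      rw [← hm]
      exact I1_fixed x 2 i
    obtain ⟨c, hc⟩ := I1_fixed_mul (u := fun k : Fin 2 => x.1.1 k.castSucc 2) hf
    have hc0 : x.1.1 0 2 = c * (x.1.2 0 1 / x.1.2 1 1) := hc 0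
    have hc1 : x.1.1 1 2 = c * 1 := hc 1
    have e1 : parl 1 (coord 1 x) = fun i => x.1.1 i 2 / x.1.1 2 2 := by
      funext i
      fin_cases i
      · show x.1.1 1 2 / x.1.1 2 2 * (x.1.2 0 1 / x.1.2 1 1) = x.1.1 0 2 / x.1.1 2 2
        rw [hc1, hc0]
        ring
      · rfl
      · show (1 : ℂ) = x.1.1 2 2 / x.1.1 2 2
        rw [div_self h1]
    refine ⟨?_, hm⟩
    show x.1.1 = proj (parl 1 (coord 1 x))
    rw [e1]
    exact I1_eq_proj' hP h1
  · have h1 : x.1.1 0 0 ≠ 0 := hx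
    have e1 : parl 2 (coord 2 x) = fun i => x.1.1 i 0 / x.1.1 0 0 := by
      funext i
      fin_cases i
      · show (1 : ℂ) = x.1.1 0 0 / x.1.1 0 0
        rw [div_self h1]
      · rfl
      · rfl
    have e2 : parm 2 (coord 2 x) = fun i : Fin 2 => (x.1.1 0 0)⁻¹ * x.1.1 i.castSucc 0 := by
      funext i
      fin_cases i
      · show (1 : ℂ) = (x.1.1 0 0)⁻¹ * x.1.1 0 0
        rw [inv_mul_cancel₀ h1]
      · show x.1.1 1 0 / x.1.1 0 0 = (x.1.1 0 0)⁻¹ * x.1.1 1 0
        rw [div_eq_inv_mul]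
    refine ⟨?_, ?_⟩
    · show x.1.1 = proj (parl 2 (coord 2 x))
      rw [e1]
      exact I1_eq_proj' hP h1
    · show x.1.2 = proj (parm 2 (coord 2 x))
      rw [e2, I1_proj_smul (fun i : Fin 2 => x.1.1 i.castSucc 0) (inv_ne_zero h1)]
      exact I1_eq_proj_of_fixed hQ (fun h => h1 (congrFun h 0)) (I1_fixed x 0)
  · have h1 : x.1.1 1 1 ≠ 0 := hx
    have e1 : parl 3 (coord 3 x) = fun i => x.1.1 i 1 / x.1.1 1 1 := by
      funext i
      fin_cases i
      · rfl
      · show (1 : ℂ) = x.1.1 1 1 / x.1.1 1 1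
        rw [div_self h1]
      · rfl
    have e2 : parm 3 (coord 3 x) = fun i : Fin 2 => (x.1.1 1 1)⁻¹ * x.1.1 i.castSucc 1 := by
      funext i
      fin_cases i
      · show x.1.1 0 1 / x.1.1 1 1 = (x.1.1 1 1)⁻¹ * x.1.1 0 1
        rw [div_eq_inv_mul]
      · show (1 : ℂ) = (x.1.1 1 1)⁻¹ * x.1.1 1 1
        rw [inv_mul_cancel₀ h1]
    refine ⟨?_, ?_⟩
    · show x.1.1 = proj (parl 3 (coord 3 x))
      rw [e1]
      exact I1_eq_proj' hP h1
    · show x.1.2 = proj (parm 3 (coord 3 x))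
      rw [e2, I1_proj_smul (fun i : Fin 2 => x.1.1 i.castSucc 1) (inv_ne_zero h1)]
      exact I1_eq_proj_of_fixed hQ (fun h => h1 (congrFun h 1)) (I1_fixed x 1)

theorem I1_cont_l (i j : Fin 3) : Continuous fun x : Bl => x.1.1 i j := by
  have h : Continuous fun x : Bl => x.1 := continuous_subtype_val
  exact h.fst.matrix_elem i j

theorem I1_cont_m (i j : Fin 2) : Continuous fun x : Bl => x.1.2 i j := by
  have h : Continuous fun x : Bl => x.1 := continuous_subtype_val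
  exact h.snd.matrix_elem i j

theorem I1_part4 (k : Fin 4) : IsOpen (dom k) ∧ ContinuousOn (coord k) (dom k) := by
  have hl := I1_cont_l
  have hm := I1_cont_m
  fin_cases k
  · refine ⟨(isOpen_ne_fun (hl 2 2) continuous_const).inter
      (isOpen_ne_fun (hm 0 0) continuous_const), ?_⟩
    exact ContinuousOn.prodMk
      ((hl 0 2).continuousOn.div (hl 2 2).continuousOn fun x hx => hx.1)
      ((hm 1 0).continuousOn.div (hm 0 0).continuousOn fun x hx => hx.2)
  · refine ⟨(isOpen_ne_fun (hl 2 2) continuous_const).inter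
      (isOpen_ne_fun (hm 1 1) continuous_const), ?_⟩
    exact ContinuousOn.prodMk
      ((hl 1 2).continuousOn.div (hl 2 2).continuousOn fun x hx => hx.1)
      ((hm 0 1).continuousOn.div (hm 1 1).continuousOn fun x hx => hx.2)
  · refine ⟨isOpen_ne_fun (hl 0 0) continuous_const, ?_⟩
    exact ContinuousOn.prodMk
      ((hl 1 0).continuousOn.div (hl 0 0).continuousOn fun x hx => hx)
      ((hl 2 0).continuousOn.div (hl 0 0).continuousOn fun x hx => hx)
  · refine ⟨isOpen_ne_fun (hl 1 1) continuous_const, ?_⟩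
    exact ContinuousOn.prodMk
      ((hl 0 1).continuousOn.div (hl 1 1).continuousOn fun x hx => hx)
      ((hl 2 1).continuousOn.div (hl 1 1).continuousOn fun x hx => hx)

theorem I1_proj_cont {n : ℕ} {f : C2 → Fin n → ℂ} (hf : Continuous f) (h0 : ∀ y, f y ≠ 0) :
    Continuous fun y => proj (f y) := by
  refine continuous_matrix fun i j => ?_
  have h1 : ∀ i, Continuous fun y => f y i := fun i => (continuous_apply i).comp hf
  simp only [I1_proj_apply]
  refine Continuous.div ?_ ?_ fun y => I1_sum_ne (h0 y)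
  · exact (h1 i).mul (Complex.continuous_conj.comp (h1 j))
  · exact Complex.continuous_ofReal.comp
      (continuous_finset_sum _ fun k _ => ((h1 k).norm).pow 2)

theorem I1_par_cont (k : Fin 4) : Continuous (parl k) ∧ Continuous (parm k) := by
  fin_cases k
  · refine ⟨continuous_pi fun i => ?_, continuous_pi fun i => ?_⟩
    · fin_cases i
      · exact continuous_fst
      · exact continuous_fst.mul continuous_snd
      · exact continuous_const
    · fin_cases i
      · exact continuous_const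
      · exact continuous_snd
  · refine ⟨continuous_pi fun i => ?_, continuous_pi fun i => ?_⟩
    · fin_cases i
      · exact continuous_fst.mul continuous_snd
      · exact continuous_fst
      · exact continuous_const
    · fin_cases i
      · exact continuous_snd
      · exact continuous_const
  · refine ⟨continuous_pi fun i => ?_, continuous_pi fun i => ?_⟩
    · fin_cases i
      · exact continuous_const
      · exact continuous_fst
      · exact continuous_snd
    · fin_cases i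
      · exact continuous_const
      · exact continuous_fst
  · refine ⟨continuous_pi fun i => ?_, continuous_pi fun i => ?_⟩
    · fin_cases i
      · exact continuous_fst
      · exact continuous_const
      · exact continuous_snd
    · fin_cases i
      · exact continuous_fst
      · exact continuous_const

theorem I1_part5 (x : Bl) : ∃ k, x ∈ dom k := by
  obtain ⟨i, hi⟩ := I1_exists_diag x.2.1
  obtain ⟨j, hj⟩ := I1_exists_diag x.2.2.1
  fin_cases i
  · exact ⟨2, hi⟩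
  · exact ⟨3, hi⟩
  · fin_cases j
    · exact ⟨0, hi, hj⟩
    · exact ⟨1, hi, hj⟩

theorem I1 : I1_stmt := by
  refine ⟨?_, ?_, ?_, ?_, I1_part5⟩
  · intro k y
    obtain ⟨h1, h2, c, h3, h4⟩ := I1_part1 k y
    exact ⟨I1_isLine h1, I1_isLine h2, I1_rel h2 c h3 h4⟩
  · intro k y x hx
    exact I1_part2 k y x (congrArg Prod.fst hx) (congrArg Prod.snd hx)
  · intro k x hx
    obtain ⟨h1, h2⟩ := I1_part3 k x hx
    exact Prod.ext h1 h2
  · intro k
    refine ⟨(I1_part4 k).1, (I1_part4 k).2, ?_⟩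
    exact (I1_proj_cont (I1_par_cont k).1 fun y => (I1_part1 k y).1).prodMk
      (I1_proj_cont (I1_par_cont k).2 fun y => (I1_part1 k y).2.1)

end

end DMAProblem
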